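import Pool.Agent.Y873.FL.Rate

/-! Explicit bounds for the flash-rainbow numbers (MP_f298ee_co), real form. -/

namespace Pool.Agent.Y873.FL

open Finset Pool.Agent.TH780.FR

/-- the three explicit forms -/
noncomputable def B1 (k : ℕ) : ℝ := k * Real.exp (-(1 / 10) * Real.sqrt (Real.log k))

noncomputable def B2 (l k : ℕ) : ℝ := (k : ℝ) ^ (1 - 1 / (128 * Real.log l))

noncomputable def B3 (l k : ℕ) : ℝ := (1 + Real.log k) ^ 6 * (1 + k / Real.sqrt l)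

theorem half_le_B1 {k : ℕ} (hk : 1 ≤ k) : 1 / 2 ≤ B1 k := by
  have hk0 : (0 : ℝ) < k := by exact_mod_cast hk
  have hk1 : (1 : ℝ) ≤ k := by exact_mod_cast hk
  have hlog : 0 ≤ Real.log k := Real.log_nonneg hk1
  have h1 : Real.sqrt (Real.log k) ≤ 1 + Real.log k := by
    rw [Real.sqrt_le_left (by linarith)]
    nlinarith
  have h2 : Real.exp (-1 / 10 - Real.log k) ≤ Real.exp (-(1 / 10) * Real.sqrt (Real.log k)) := by
    apply Real.exp_le_exp.mpr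
    linarith
  have h3 : (k : ℝ) * Real.exp (-1 / 10 - Real.log k) = Real.exp (-1 / 10) := by
    rw [Real.exp_sub, Real.exp_log hk0]
    field_simp
  have h4 : (1 : ℝ) / 2 ≤ Real.exp (-1 / 10) := by
    have := Real.add_one_le_exp (-1 / 10 : ℝ)
    linarith
  unfold B1
  calc (1 : ℝ) / 2 ≤ Real.exp (-1 / 10) := h4
    _ = (k : ℝ) * Real.exp (-1 / 10 - Real.log k) := h3.symm
    _ ≤ _ := mul_le_mul_of_nonneg_left h2 hk0.le

theorem log_two_ge : (1 : ℝ) / 2 ≤ Real.log 2 := by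
  have := Real.log_two_gt_d9
  linarith

theorem one_le_B2 {l k : ℕ} (hl : 2 ≤ l) (hk : 1 ≤ k) : 1 ≤ B2 l k := by
  have hk1 : (1 : ℝ) ≤ k := by exact_mod_cast hk
  have hl2 : (2 : ℝ) ≤ l := by exact_mod_cast hl
  have h1 : Real.log 2 ≤ Real.log l := Real.log_le_log (by norm_num) hl2
  have h2 := log_two_ge
  have h3 : 1 / (128 * Real.log l) ≤ 1 := by
    rw [div_le_one (by linarith)]
    linarith
  unfold B2
  exact Real.one_le_rpow hk1 (by linarith)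

theorem one_le_B3 {l k : ℕ} (hk : 1 ≤ k) : 1 ≤ B3 l k := by
  have hk1 : (1 : ℝ) ≤ k := by exact_mod_cast hk
  have hlog : 0 ≤ Real.log k := Real.log_nonneg hk1
  unfold B3
  have h1 : (1 : ℝ) ≤ (1 + Real.log k) ^ 6 := one_le_pow₀ (by linarith)
  have h2 : (1 : ℝ) ≤ 1 + k / Real.sqrt l := by
    have : (0 : ℝ) ≤ k / Real.sqrt l := by positivity
    linarith
  nlinarith

theorem exp_half_pow (n : ℕ) : Real.exp ((n : ℝ) / 2) ≤ 2 ^ n := by
  have h1 : Real.exp (1 / 2) ≤ 2 := by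
    have h2 : Real.exp (1 / 2) ^ 2 ≤ 2 ^ 2 := by
      rw [← Real.exp_nat_mul]
      have := Real.exp_one_lt_d9
      norm_num
      linarith
    exact le_of_sq_le_sq h2 (by norm_num)
  calc Real.exp ((n : ℝ) / 2) = Real.exp (1 / 2) ^ n := by
        rw [← Real.exp_nat_mul]; congr 1; ring
    _ ≤ 2 ^ n := pow_le_pow_left₀ (Real.exp_pos _).le h1 n

/-- `log k ≤ (log₂ (k - 1) + 1) log 2` -/
theorem log_le_Y {k : ℕ} (hk : 1 ≤ k) :
    Real.log k ≤ ((Nat.log 2 (k - 1) + 1 : ℕ) : ℝ) * Real.log 2 := by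
  have h1 : k - 1 < 2 ^ (Nat.log 2 (k - 1) + 1) := Nat.lt_pow_succ_log_self (by norm_num) _
  have h2 : k ≤ 2 ^ (Nat.log 2 (k - 1) + 1) := by omega
  have hk0 : (0 : ℝ) < k := by exact_mod_cast hk
  have h3 : (k : ℝ) ≤ 2 ^ (Nat.log 2 (k - 1) + 1) := by exact_mod_cast h2
  calc Real.log k ≤ Real.log (2 ^ (Nat.log 2 (k - 1) + 1)) := Real.log_le_log hk0 h3
    _ = _ := by rw [Real.log_pow]

theorem Y_le {k : ℕ} (hk : 1 ≤ k) :
    ((Nat.log 2 (k - 1) + 1 : ℕ) : ℝ) ≤ 2 * (1 + Real.log k) := by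
  have hk1 : (1 : ℝ) ≤ k := by exact_mod_cast hk
  have hlog : 0 ≤ Real.log k := Real.log_nonneg hk1
  rcases Nat.eq_zero_or_pos (k - 1) with h0 | h0
  · rw [h0]
    simp
    linarith
  · have h1 : 2 ^ (Nat.log 2 (k - 1)) ≤ k - 1 := Nat.pow_log_le_self 2 (by omega)
    have h2 : (2 : ℝ) ^ (Nat.log 2 (k - 1)) ≤ k := by
      have : 2 ^ (Nat.log 2 (k - 1)) ≤ k := by omega
      exact_mod_cast this
    have h3 : (Nat.log 2 (k - 1) : ℝ) * Real.log 2 ≤ Real.log k := by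
      rw [← Real.log_pow]
      exact Real.log_le_log (by positivity) h2
    have h4 := log_two_ge
    have h5 : (0 : ℝ) ≤ (Nat.log 2 (k - 1) : ℝ) := by positivity
    push_cast
    nlinarith

theorem conv1 {k : ℕ} (hk : 1 ≤ k) : ∃ e, 24 * e ^ 2 ≤ Nat.log 2 (k - 1) + 1 ∧
    (((k - 1) / 2 ^ e + 2 : ℕ) : ℝ) ≤ 6 * B1 k := by
  set Y' := Nat.log 2 (k - 1) + 1 with hY'
  have hlogY := log_le_Y hk
  rw [← hY'] at hlogY
  have hk0 : (0 : ℝ) < k := by exact_mod_cast hk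
  have hk1 : (1 : ℝ) ≤ k := by exact_mod_cast hk
  have hlog : 0 ≤ Real.log k := Real.log_nonneg hk1
  refine ⟨Nat.sqrt (Y' / 24), ?_, ?_⟩
  · have h1 := Nat.sqrt_le' (Y' / 24)
    omega
  · set e := Nat.sqrt (Y' / 24) with he
    have h1 : Y' / 24 < (e + 1) ^ 2 := Nat.lt_succ_sqrt' (Y' / 24)
    have h2 : Y' ≤ 24 * (e + 1) ^ 2 := by omega
    have h3 : (Y' : ℝ) ≤ 24 * ((e : ℝ) + 1) ^ 2 := by exact_mod_cast h2
    have hl2 : Real.log 2 ≤ 1 := by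
      have := Real.log_two_lt_d9
      linarith
    have h4 : Real.sqrt (Real.log k) ≤ 5 * ((e : ℝ) + 1) := by
      rw [Real.sqrt_le_left (by positivity)]
      have h5 : (Y' : ℝ) * Real.log 2 ≤ Y' := by
        have : (0 : ℝ) ≤ Y' := by positivity
        nlinarith
      nlinarith [sq_nonneg ((e : ℝ) + 1)]
    have h6 : Real.exp (1 / 10 * Real.sqrt (Real.log k)) ≤ 2 * 2 ^ e := by
      calc Real.exp (1 / 10 * Real.sqrt (Real.log k)) ≤ Real.exp (((e + 1 : ℕ) : ℝ) / 2) := by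
            apply Real.exp_le_exp.mpr
            push_cast
            linarith
        _ ≤ 2 ^ (e + 1) := exp_half_pow (e + 1)
        _ = 2 * 2 ^ e := by ring
    have h7 : (k : ℝ) / 2 ^ e ≤ 2 * B1 k := by
      unfold B1
      rw [neg_mul, Real.exp_neg, div_le_iff₀ (by positivity)]
      have h8 : 0 < Real.exp (1 / 10 * Real.sqrt (Real.log k)) := Real.exp_pos _
      rw [show 2 * ((k : ℝ) * (Real.exp (1 / 10 * Real.sqrt (Real.log k)))⁻¹) * 2 ^ e =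
        (k * (2 * 2 ^ e)) / Real.exp (1 / 10 * Real.sqrt (Real.log k)) by field_simp]
      rw [le_div_iff₀ h8]
      exact mul_le_mul_of_nonneg_left h6 hk0.le
    have h9 := half_le_B1 hk
    have h10 : (((k - 1) / 2 ^ e : ℕ) : ℝ) ≤ (k : ℝ) / 2 ^ e := by
      have h11 : ((k - 1) / 2 ^ e : ℕ) ≤ k / 2 ^ e := Nat.div_le_div_right (by omega)
      calc (((k - 1) / 2 ^ e : ℕ) : ℝ) ≤ ((k / 2 ^ e : ℕ) : ℝ) := by exact_mod_cast h11
        _ ≤ (k : ℝ) / ((2 ^ e : ℕ) : ℝ) := Nat.cast_div_le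
        _ = _ := by push_cast; rfl
    have h12 : (((k - 1) / 2 ^ e + 2 : ℕ) : ℝ) = (((k - 1) / 2 ^ e : ℕ) : ℝ) + 2 := by
      push_cast; ring
    rw [h12]
    linarith

theorem conv2 {l k : ℕ} (hl : 3 ≤ l) (hk : 1 ≤ k) :
    ∃ L, l ≤ 2 ^ L ∧ ∃ e, 32 * L * e ≤ Nat.log 2 (k - 1) + 1 ∧
    (((k - 1) / 2 ^ e + 2 : ℕ) : ℝ) ≤ 6 * B2 l k := by
  set Y' := Nat.log 2 (k - 1) + 1 with hY'
  have hlogY := log_le_Y hk
  rw [← hY'] at hlogY
  have hk0 : (0 : ℝ) < k := by exact_mod_cast hk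
  have hk1 : (1 : ℝ) ≤ k := by exact_mod_cast hk
  have hlog : 0 ≤ Real.log k := Real.log_nonneg hk1
  set L := Nat.clog 2 l with hL
  have hlL : l ≤ 2 ^ L := Nat.le_pow_clog (by norm_num) l
  have hLl : 2 ^ (L - 1) < l := by
    have := Nat.pow_pred_clog_lt_self (b := 2) (by norm_num) (x := l) (by omega)
    simpa [hL, Nat.pred_eq_sub_one] using this
  have hL2 : 2 ≤ L := by
    by_contra h
    have h1 : L ≤ 1 := by omega
    have h2 : 2 ^ L ≤ 2 ^ 1 := Nat.pow_le_pow_right (by norm_num) h1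
    omega
  clear_value L
  refine ⟨L, hlL, Y' / (32 * L), Nat.mul_div_le _ _, ?_⟩
  set e := Y' / (32 * L) with he
  have h1 : Y' < 32 * L * (e + 1) := Nat.lt_mul_div_succ Y' (by omega)
  clear_value e Y'
  have h3 : (Y' : ℝ) ≤ 32 * L * ((e : ℝ) + 1) := by exact_mod_cast h1.le
  have hlog2 := log_two_ge
  have hLlog : (L : ℝ) / 2 * Real.log 2 ≤ Real.log l := by
    have h4 : ((L - 1 : ℕ) : ℝ) * Real.log 2 ≤ Real.log l := by
      rw [← Real.log_pow]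
      apply Real.log_le_log (by positivity)
      exact_mod_cast hLl.le
    have h5 : (L : ℝ) / 2 ≤ ((L - 1 : ℕ) : ℝ) := by
      rw [Nat.cast_sub (by omega)]
      have : (2 : ℝ) ≤ L := by exact_mod_cast hL2
      push_cast
      linarith
    exact (mul_le_mul_of_nonneg_right h5 (by linarith)).trans h4
  have hL0 : (0 : ℝ) < L := by
    have : (2 : ℝ) ≤ L := by exact_mod_cast hL2
    linarith
  have hlogl : 0 < Real.log l := lt_of_lt_of_le (by positivity) hLlog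
  have h6 : (k : ℝ) ^ (1 / (128 * Real.log l)) ≤ 2 * 2 ^ e := by
    rw [Real.rpow_def_of_pos hk0]
    calc Real.exp (Real.log k * (1 / (128 * Real.log l))) ≤ Real.exp (((e + 1 : ℕ) : ℝ) / 2) := by
          apply Real.exp_le_exp.mpr
          rw [mul_one_div, div_le_iff₀ (by positivity)]
          push_cast
          calc Real.log k ≤ (Y' : ℝ) * Real.log 2 := hlogY
            _ ≤ (32 * L * ((e : ℝ) + 1)) * Real.log 2 :=
              mul_le_mul_of_nonneg_right h3 (by linarith)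
            _ = ((e : ℝ) + 1) / 2 * (128 * ((L : ℝ) / 2 * Real.log 2)) := by ring
            _ ≤ ((e : ℝ) + 1) / 2 * (128 * Real.log l) := by gcongr
      _ ≤ 2 ^ (e + 1) := exp_half_pow (e + 1)
      _ = 2 * 2 ^ e := by ring
  have h7 : (k : ℝ) / 2 ^ e ≤ 2 * B2 l k := by
    unfold B2
    rw [Real.rpow_sub hk0, Real.rpow_one, div_le_iff₀ (by positivity)]
    have h8 : 0 < (k : ℝ) ^ (1 / (128 * Real.log l)) := Real.rpow_pos_of_pos hk0 _
    rw [show 2 * ((k : ℝ) / (k : ℝ) ^ (1 / (128 * Real.log l))) * 2 ^ e =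
      (k * (2 * 2 ^ e)) / (k : ℝ) ^ (1 / (128 * Real.log l)) by ring]
    rw [le_div_iff₀ h8]
    exact mul_le_mul_of_nonneg_left h6 hk0.le
  have h9 := one_le_B2 (l := l) (by omega) hk
  have h10 : (((k - 1) / 2 ^ e : ℕ) : ℝ) ≤ (k : ℝ) / 2 ^ e := by
    have h11 : ((k - 1) / 2 ^ e : ℕ) ≤ k / 2 ^ e := Nat.div_le_div_right (by omega)
    calc (((k - 1) / 2 ^ e : ℕ) : ℝ) ≤ ((k / 2 ^ e : ℕ) : ℝ) := by exact_mod_cast h11
      _ ≤ (k : ℝ) / ((2 ^ e : ℕ) : ℝ) := Nat.cast_div_le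
      _ = _ := by push_cast; rfl
  have h12 : (((k - 1) / 2 ^ e + 2 : ℕ) : ℝ) = (((k - 1) / 2 ^ e : ℕ) : ℝ) + 2 := by
    push_cast; ring
  rw [h12]
  linarith

theorem conv3 {l k : ℕ} (hl : 3 ≤ l) (hk : 1 ≤ k) :
    ((2 * (Nat.log 2 (k - 1) + 1) ^ 6 * ((k - 1) / Nat.sqrt l + 1) + 1 : ℕ) : ℝ) ≤ 257 * B3 l k := by
  have hY := Y_le hk
  have hk0 : (0 : ℝ) < k := by exact_mod_cast hk
  have hk1 : (1 : ℝ) ≤ k := by exact_mod_cast hk
  have hlog : 0 ≤ Real.log k := Real.log_nonneg hk1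
  set Y' := Nat.log 2 (k - 1) + 1 with hY'
  clear_value Y'
  have hl0 : (0 : ℝ) < l := by
    have : (3 : ℝ) ≤ l := by exact_mod_cast hl
    linarith
  have hs0 : 0 < Real.sqrt l := Real.sqrt_pos.mpr hl0
  set m := Nat.sqrt l with hm
  have hm1 : 1 ≤ m := Nat.le_sqrt.mpr (by omega)
  have hlm : l < (m + 1) * (m + 1) := Nat.lt_succ_sqrt l
  have hm1' : (1 : ℝ) ≤ m := by exact_mod_cast hm1
  have h1 : Real.sqrt l ≤ 2 * m := by
    rw [Real.sqrt_le_left (by positivity)]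
    have : (l : ℝ) ≤ (m + 1) * (m + 1) := by exact_mod_cast hlm.le
    nlinarith
  have h2 : (((k - 1) / m : ℕ) : ℝ) ≤ 2 * (k / Real.sqrt l) := by
    calc (((k - 1) / m : ℕ) : ℝ) ≤ ((k / m : ℕ) : ℝ) := by
          exact_mod_cast Nat.div_le_div_right (by omega)
      _ ≤ (k : ℝ) / m := Nat.cast_div_le
      _ ≤ 2 * (k / Real.sqrt l) := by
          rw [div_le_iff₀ (by linarith), ← mul_div_assoc, div_mul_eq_mul_div, le_div_iff₀ hs0]
          nlinarith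
  have h3 : (Y' : ℝ) ^ 6 ≤ 64 * (1 + Real.log k) ^ 6 := by
    calc (Y' : ℝ) ^ 6 ≤ (2 * (1 + Real.log k)) ^ 6 := pow_le_pow_left₀ (by positivity) hY 6
      _ = _ := by ring
  have h4 := one_le_B3 (l := l) hk
  have h5 : (0 : ℝ) ≤ k / Real.sqrt l := by positivity
  push_cast
  have h2' : (((k - 1) / m : ℕ) : ℝ) + 1 ≤ 2 * (1 + k / Real.sqrt l) := by linarith
  calc 2 * (Y' : ℝ) ^ 6 * ((((k - 1) / m : ℕ) : ℝ) + 1) + 1
      ≤ 2 * (64 * (1 + Real.log k) ^ 6) * (2 * (1 + k / Real.sqrt l)) + 1 := by gcongr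
    _ = 256 * B3 l k + 1 := by unfold B3; ring
    _ ≤ 257 * B3 l k := by linarith

theorem f_le_pow {l k : ℕ} (hl : 1 ≤ l) (hl2 : l ≤ 2) (hk : 1 ≤ k) : f' l k ≤ l ^ (k - 1) := by
  rcases Nat.eq_zero_or_pos (f' l k) with h0 | h0
  · rw [h0]; exact Nat.zero_le _
  obtain ⟨n, lam, hn, c, hL, hR⟩ := exists_avoid hl hk h0
  have h1 : n ≤ l ^ (k - 1) := by
    interval_cases l
    · have := Pool.Agent.TH226.FR.card_le_one_of_lev hL
      simpa using this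
    · have := Pool.Agent.TH226.FR.card_le_two_pow_of_lev hL hR
      simpa using this
  exact hn.trans h1

/-- the explicit bounds -/
theorem final : ∃ C : ℝ, 0 < C ∧ ∀ l k : ℕ, 1 ≤ l → 1 ≤ k →
    (f' l k : ℝ) ≤ C * B1 k * (l : ℝ) ^ (k - 1) ∧
    (2 ≤ l → (f' l k : ℝ) ≤ C * B2 l k * (l : ℝ) ^ (k - 1)) ∧
    (f' l k : ℝ) ≤ C * B3 l k * (l : ℝ) ^ (k - 1) := by
  obtain ⟨A1, hA1⟩ := rate1
  obtain ⟨A2, hA2⟩ := rate2
  obtain ⟨A3, hA3⟩ := rate3
  refine ⟨257 * (A1 + A2 + A3) + 2, by positivity, fun l k hl hk => ?_⟩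
  have b1 := half_le_B1 hk
  have b3 := one_le_B3 (l := l) hk
  have a1 : (0 : ℝ) ≤ A1 := by positivity
  have a2 : (0 : ℝ) ≤ A2 := by positivity
  have a3 : (0 : ℝ) ≤ A3 := by positivity
  have hlp : (0 : ℝ) < (l : ℝ) ^ (k - 1) := by
    have : (0 : ℝ) < l := by exact_mod_cast hl
    positivity
  rcases Nat.lt_or_ge l 3 with h3 | h3
  · have h1 : (f' l k : ℝ) ≤ (l : ℝ) ^ (k - 1) := by
      exact_mod_cast f_le_pow hl (by omega) hk
    have h2 : ∀ B : ℝ, 1 / 2 ≤ B → (f' l k : ℝ) ≤ (257 * (A1 + A2 + A3) + 2) * B * (l : ℝ) ^ (k - 1) := by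
      intro B hB
      have h4 : (1 : ℝ) ≤ (257 * (A1 + A2 + A3) + 2) * B := by nlinarith
      nlinarith
    exact ⟨h2 _ b1, fun h => h2 _ (by linarith [one_le_B2 h hk]), h2 _ (by linarith)⟩
  · rcases Nat.eq_zero_or_pos (f' l k) with h0 | h0
    · rw [h0]
      have h2 : ∀ B : ℝ, 1 / 2 ≤ B →
          ((0 : ℕ) : ℝ) ≤ (257 * (A1 + A2 + A3) + 2) * B * (l : ℝ) ^ (k - 1) := by
        intro B hB
        have : (0 : ℝ) ≤ B := by linarith
        push_cast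
        positivity
      exact ⟨h2 _ b1, fun h => h2 _ (by linarith [one_le_B2 h hk]), h2 _ (by linarith)⟩
    obtain ⟨n, lam, hn, c, hL, hR⟩ := exists_avoid hl hk h0
    have hn' : (f' l k : ℝ) ≤ n := by exact_mod_cast hn
    refine ⟨?_, fun h => ?_, ?_⟩
    · obtain ⟨e, he, hB⟩ := conv1 hk
      have h4 := hA1 l h3 (k - 1) c _ lam hL hR e he
      rw [Finset.card_range] at h4
      have h5 : (n : ℝ) ≤ A1 * (((k - 1) / 2 ^ e + 2 : ℕ) : ℝ) * (l : ℝ) ^ (k - 1) := by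
        exact_mod_cast h4
      calc (f' l k : ℝ) ≤ n := hn'
        _ ≤ A1 * (((k - 1) / 2 ^ e + 2 : ℕ) : ℝ) * (l : ℝ) ^ (k - 1) := h5
        _ ≤ A1 * (6 * B1 k) * (l : ℝ) ^ (k - 1) := by gcongr
        _ ≤ (257 * (A1 + A2 + A3) + 2) * B1 k * (l : ℝ) ^ (k - 1) := by
            apply mul_le_mul_of_nonneg_right _ hlp.le
            nlinarith
    · obtain ⟨L, hlL, e, he, hB⟩ := conv2 h3 hk
      have b2 := one_le_B2 h hk
      have h4 := hA2 l h3 L hlL (k - 1) c _ lam hL hR e he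
      rw [Finset.card_range] at h4
      have h5 : (n : ℝ) ≤ A2 * (((k - 1) / 2 ^ e + 2 : ℕ) : ℝ) * (l : ℝ) ^ (k - 1) := by
        exact_mod_cast h4
      calc (f' l k : ℝ) ≤ n := hn'
        _ ≤ A2 * (((k - 1) / 2 ^ e + 2 : ℕ) : ℝ) * (l : ℝ) ^ (k - 1) := h5
        _ ≤ A2 * (6 * B2 l k) * (l : ℝ) ^ (k - 1) := by gcongr
        _ ≤ (257 * (A1 + A2 + A3) + 2) * B2 l k * (l : ℝ) ^ (k - 1) := by
            apply mul_le_mul_of_nonneg_right _ hlp.le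
            nlinarith
    · have h4 := hA3 l h3 (k - 1) c _ lam hL hR
      rw [Finset.card_range] at h4
      have hB := conv3 h3 hk
      have h5 : (n : ℝ) ≤ A3 * ((2 * (Nat.log 2 (k - 1) + 1) ^ 6 *
          ((k - 1) / Nat.sqrt l + 1) + 1 : ℕ) : ℝ) * (l : ℝ) ^ (k - 1) := by
        exact_mod_cast h4
      calc (f' l k : ℝ) ≤ n := hn'
        _ ≤ _ := h5
        _ ≤ A3 * (257 * B3 l k) * (l : ℝ) ^ (k - 1) := by gcongr
        _ ≤ (257 * (A1 + A2 + A3) + 2) * B3 l k * (l : ℝ) ^ (k - 1) := by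
            apply mul_le_mul_of_nonneg_right _ hlp.le
            nlinarith

end Pool.Agent.Y873.FL
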