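import Pool.Agent.TH780.FR.Final

/-! Quantitative forms of the bound for the flash-rainbow numbers (MP_f298ee_co): admissible savings. -/

namespace Pool.Agent.Y873.FL

open Finset Pool.Agent.TH780.FR

/-- the numerical conditions of the core lemma for the saving `E` -/
def Par (G l R E : ℕ) : Prop := ∃ t σ s0 q K κ : ℕ,
    κ = 6 * (s0 + 2) ∧ 1 ≤ t ∧ 1 ≤ s0 ∧ 0 < K ∧
    2 * κ * R < l ^ t ∧
    32 * κ * t * R ^ 2 ≤ l ^ σ ∧
    32 * κ * t ^ 2 * (G * (σ + 1) ^ 2) * E ≤ R ∧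
    256 * κ ^ 2 * t ^ 3 * (G * (σ + 1) ^ 2) * E ≤ l ^ s0 ∧
    4 * κ * (G * (s0 + q + 1) ^ 2) * l ^ q * E ≤ R ∧
    16 * κ * (G * (σ + 1) ^ 2) * E ≤ K ∧
    ((s0 = 1 ∧ q = 0 ∧ 4 * κ * t * K * E * (Nat.log 2 R + 1) ≤ l) ∨
      4 * κ * t * K * E * s0 ^ 2 * l ^ (s0 - 1) ≤ 2 ^ (q + 1))

/-- the general reduction -/
theorem main_gen : ∃ G : ℕ, ∀ R0 : ℕ, ∃ A : ℕ, ∀ l ≥ 3, ∀ R' H : ℕ,
    (∀ R, R0 ≤ R → R ≤ R' → ∃ E, 1 ≤ E ∧ Par G l R E ∧ R ≤ E * H) →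
    ∀ (c : ℕ → ℕ → ℕ) (V : Finset ℕ) (lam : ℕ → ℕ → ℕ), Lev c V l lam → RB c V R' →
      V.card ≤ A * (H + 1) * l ^ R' := by
  obtain ⟨G', hG'⟩ := ap_bound
  refine ⟨G' + 1, fun R0 => ?_⟩
  set G := G' + 1 with hGdef
  have hG : ∀ (c : ℕ → ℕ → ℕ) (V : Finset ℕ) (l R : ℕ) (lam : ℕ → ℕ → ℕ), 3 ≤ l →
      Lev c V l lam → RB c V R → V.card ≤ G * (R + 1) ^ 2 * l ^ R := by
    intro c V l R lam hl hL hR
    refine (hG' c V l R lam hl hL hR).trans ?_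
    gcongr
    omega
  refine ⟨G * (R0 + 3) ^ 2 + 1, fun l hl R' H hpar c V lam hL hRB => ?_⟩
  by_contra hcon
  push Not at hcon
  obtain ⟨R, hRR', U, hUV, hRBU, hRec, hcard⟩ := exists_record (l := l) (by omega) hRB
  have hlpos : ∀ k, 0 < l ^ k := fun k => pow_pos (by omega) k
  have hLU := hL.sub hUV
  have h1 : (G * (R0 + 3) ^ 2 + 1) * (H + 1) * l ^ R < U.card := by
    have h2 : ((G * (R0 + 3) ^ 2 + 1) * (H + 1) * l ^ R) * l ^ R' < U.card * l ^ R' := by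
      calc ((G * (R0 + 3) ^ 2 + 1) * (H + 1) * l ^ R) * l ^ R' =
          ((G * (R0 + 3) ^ 2 + 1) * (H + 1) * l ^ R') * l ^ R := by ring
        _ < V.card * l ^ R := Nat.mul_lt_mul_of_pos_right hcon (hlpos R)
        _ ≤ U.card * l ^ R' := hcard
    exact lt_of_mul_lt_mul_right h2 (Nat.zero_le _)
  have h3 : U.card ≤ G * (R + 1) ^ 2 * l ^ R := hG c U l R lam hl hLU hRBU
  have hRbig : R0 + 2 ≤ R := by
    by_contra h
    have h5 : R + 1 ≤ R0 + 3 := by omega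
    have h6 : U.card ≤ (G * (R0 + 3) ^ 2 + 1) * (H + 1) * l ^ R := by
      calc U.card ≤ G * (R + 1) ^ 2 * l ^ R := h3
        _ ≤ G * (R0 + 3) ^ 2 * l ^ R := by gcongr
        _ ≤ (G * (R0 + 3) ^ 2 + 1) * (H + 1) * l ^ R := by
            apply Nat.mul_le_mul_right
            exact (Nat.le_succ _).trans (Nat.le_mul_of_pos_right _ (Nat.succ_pos H))
    omega
  obtain ⟨E, hE1, ⟨t, σ, s0, q, K, κ, hκ, ht, hs0, hK, p1, p2, p3, p4, p5, p6, p7⟩, hEH⟩ :=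
    hpar R (by omega) hRR'
  refine core (g := fun j => G * (j + 1) ^ 2) hl hLU hRBU hRec (by omega) ?_ ?_ ?_ hκ ht hs0 hK
    p1 p2 p3 p4 p5 p6 p7
  · intro W hW j hj
    exact hG c W l j lam hl (hLU.sub hW) hj
  · intro i j hij
    show G * (i + 1) ^ 2 ≤ G * (j + 1) ^ 2
    gcongr
  · calc R * l ^ R ≤ (E * H) * l ^ R := Nat.mul_le_mul_right _ hEH
      _ = E * (H * l ^ R) := by ring
      _ ≤ E * U.card := by
        apply Nat.mul_le_mul_left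
        refine le_trans ?_ h1.le
        apply Nat.mul_le_mul_right
        calc H ≤ 1 * (H + 1) := by omega
          _ ≤ (G * (R0 + 3) ^ 2 + 1) * (H + 1) := Nat.mul_le_mul_right _ (by omega)

/-- basic facts on `Y = log₂ R + 1` for large `R` -/
theorem basics (G : ℕ) : ∃ R0 : ℕ, ∀ R ≥ R0, ∀ Y, Y = Nat.log 2 R + 1 →
    (∀ k, k ≤ 10 ^ 8 → k * G ≤ Y) ∧ 2 ^ 22 < Y ∧ 2 ^ (Y - 1) ≤ R ∧ R < 2 ^ Y ∧
    ∃ z, Y ≤ 2 ^ z ∧ z ≤ Y ∧ 6 * (1000 * z ^ 2) ≤ Y ∧ 1 ≤ z := by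
  set M : ℕ := 10 ^ 8 * (G + 1) + 2 ^ 40 with hM
  refine ⟨2 ^ M, fun R hR Y hY => ?_⟩
  have hR0 : R ≠ 0 := by
    have : 0 < 2 ^ M := by positivity
    omega
  have hMY : M + 1 ≤ Y := by
    rw [hY]
    have : M ≤ Nat.log 2 R := Nat.le_log_of_pow_le (by norm_num) hR
    omega
  have hRlow : 2 ^ (Y - 1) ≤ R := by
    have : Y - 1 = Nat.log 2 R := by omega
    rw [this]
    exact Nat.pow_log_le_self 2 hR0
  have hRup : R < 2 ^ Y := by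
    rw [hY]
    exact Nat.lt_pow_succ_log_self (by norm_num) R
  have hGY : 10 ^ 8 * G ≤ Y := by omega
  have hYbig : 2 ^ 40 < Y := by omega
  refine ⟨fun k hk => (Nat.mul_le_mul_right _ hk).trans hGY, by omega, hRlow, hRup,
    Nat.clog 2 Y, Nat.le_pow_clog (by norm_num) Y, ?_, ?_, ?_⟩
  · have hzY : 2 ^ (Nat.clog 2 Y - 1) < Y := by
      have := Nat.pow_pred_clog_lt_self (b := 2) (by norm_num) (x := Y) (by omega)
      simpa [Nat.pred_eq_sub_one] using this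
    have : Nat.clog 2 Y - 1 < 2 ^ (Nat.clog 2 Y - 1) := Nat.lt_two_pow_self
    omega
  · have hzY : 2 ^ (Nat.clog 2 Y - 1) < Y := by
      have := Nat.pow_pred_clog_lt_self (b := 2) (by norm_num) (x := Y) (by omega)
      simpa [Nat.pred_eq_sub_one] using this
    have hYz : Y ≤ 2 ^ Nat.clog 2 Y := Nat.le_pow_clog (by norm_num) Y
    generalize Nat.clog 2 Y = z at *
    have hz40 : 40 ≤ z := by
      by_contra h
      have h2 : 2 ^ z ≤ 2 ^ 40 := Nat.pow_le_pow_right (by norm_num) (by omega)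
      omega
    have : ∀ w : ℕ, 40 ≤ w → 6 * (1000 * w ^ 2) ≤ 2 ^ (w - 1) := by
      intro w hw
      induction w, hw using Nat.le_induction with
      | base => norm_num
      | succ w hw ih =>
        have h1 : w + 1 - 1 = (w - 1) + 1 := by omega
        have h2 : 2 ^ (w - 1 + 1) = 2 * 2 ^ (w - 1) := by ring
        rw [h1, h2]
        nlinarith
    exact (this z hz40).trans hzY.le
  · exact Nat.clog_pos (by norm_num) (by omega)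

theorem parS (G : ℕ) : ∃ R0 : ℕ, ∀ R ≥ R0, ∀ l ≥ 3, ∀ L, l ≤ 2 ^ L → ∀ E, 1 ≤ E →
    ((Nat.log 2 R + 1) ^ 18 * E ^ 3) ^ L * ((Nat.log 2 R + 1) ^ 4 * E) ≤ R → Par G l R E := by
  obtain ⟨R0, hR0⟩ := basics G
  refine ⟨R0, fun R hR l hl L hL E hE hcond => ?_⟩
  obtain ⟨hk, hYbig, hRlow, hRup, z, hYz, hzY, hzin, hz1⟩ := hR0 R hR _ rfl
  set Y := Nat.log 2 R + 1 with hY
  clear_value Y
  have hY1 : 1 ≤ Y := by omega
  have hL1 : 1 ≤ L := by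
    by_contra h
    have : L = 0 := by omega
    subst this
    omega
  have hbase : 1 ≤ Y ^ 18 * E ^ 3 := Nat.mul_pos (by positivity) (by positivity)
  have hcond1 : Y ^ 22 * E ^ 4 ≤ R := by
    refine le_trans ?_ hcond
    calc Y ^ 22 * E ^ 4 = (Y ^ 18 * E ^ 3) ^ 1 * (Y ^ 4 * E) := by ring
      _ ≤ (Y ^ 18 * E ^ 3) ^ L * (Y ^ 4 * E) :=
        Nat.mul_le_mul_right _ (Nat.pow_le_pow_right hbase hL1)
  have hYE : ∀ a b, a ≤ 22 → b ≤ 4 → Y ^ a * E ^ b ≤ R := by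
    intro a b ha hb
    exact (Nat.mul_le_mul (Nat.pow_le_pow_right hY1 ha) (Nat.pow_le_pow_right hE hb)).trans hcond1
  have hl1 : 1 < l := by omega
  set Q := Y ^ 8 * E with hQ
  set s0 := Nat.clog l Q with hs0
  have hQone : 1 < Q := by
    have : 1 < Y ^ 8 := Nat.one_lt_pow (by norm_num) (by omega)
    calc 1 < Y ^ 8 * 1 := by omega
      _ ≤ Y ^ 8 * E := Nat.mul_le_mul_left _ hE
  have hs01 : 1 ≤ s0 := Nat.clog_pos hl1 (by omega)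
  have hls0 : Q ≤ l ^ s0 := Nat.le_pow_clog hl1 _
  have hls0' : l ^ (s0 - 1) ≤ Q := by
    have := Nat.pow_pred_clog_lt_self (b := l) hl1 (x := Q) hQone
    have h2 : l ^ (s0 - 1) < Q := by simpa [hs0, Nat.pred_eq_sub_one] using this
    exact h2.le
  have hs0Y : s0 ≤ Y := by
    have h1 : 2 ^ (s0 - 1) < 2 ^ Y := by
      calc 2 ^ (s0 - 1) ≤ l ^ (s0 - 1) := Nat.pow_le_pow_left (by omega) _
        _ ≤ Q := hls0'
        _ = Y ^ 8 * E ^ 1 := by rw [pow_one]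
        _ ≤ R := hYE 8 1 (by norm_num) (by norm_num)
        _ < 2 ^ Y := hRup
    have h2 := (Nat.pow_lt_pow_iff_right (by norm_num : 1 < 2)).mp h1
    omega
  set q := Nat.clog 2 (Y ^ 17 * E ^ 3) with hq
  have hYEone : 1 < Y ^ 17 * E ^ 3 := by
    have h1 : 1 < Y ^ 17 := Nat.one_lt_pow (by norm_num) (by omega)
    have h2 : 1 ≤ E ^ 3 := Nat.one_le_pow _ _ hE
    calc 1 < Y ^ 17 * 1 := by omega
      _ ≤ Y ^ 17 * E ^ 3 := Nat.mul_le_mul_left _ h2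
  have hq1 : Y ^ 17 * E ^ 3 ≤ 2 ^ q := Nat.le_pow_clog (by norm_num) _
  have hq2 : 2 ^ q ≤ Y ^ 18 * E ^ 3 := by
    have h1 := Nat.pow_pred_clog_lt_self (b := 2) (by norm_num) (x := Y ^ 17 * E ^ 3) hYEone
    have h2 : 2 ^ (q - 1) < Y ^ 17 * E ^ 3 := by simpa [hq, Nat.pred_eq_sub_one] using h1
    have h3 : 1 ≤ q := Nat.clog_pos (by norm_num) (by omega)
    have h4 : 2 ^ q = 2 * 2 ^ (q - 1) := by rw [← pow_succ']; congr 1; omega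
    calc 2 ^ q ≤ 2 * (Y ^ 17 * E ^ 3) := by omega
      _ ≤ Y * (Y ^ 17 * E ^ 3) := Nat.mul_le_mul_right _ (by omega)
      _ = Y ^ 18 * E ^ 3 := by ring
  have hqY : q ≤ Y := by
    have h1 : 2 ^ q < 2 ^ Y := by
      calc 2 ^ q ≤ Y ^ 18 * E ^ 3 := hq2
        _ ≤ R := hYE 18 3 (by norm_num) (by norm_num)
        _ < 2 ^ Y := hRup
    have h2 := (Nat.pow_lt_pow_iff_right (by norm_num : 1 < 2)).mp h1
    omega
  clear_value s0 q Q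
  have hκ : 6 * (s0 + 2) ≤ 18 * Y := by omega
  have hl2Y : 2 ^ (2 * Y) ≤ l ^ (2 * Y) := Nat.pow_le_pow_left (by omega) _
  have hl4Y : 2 ^ (4 * Y) ≤ l ^ (4 * Y) := Nat.pow_le_pow_left (by omega) _
  have h5Y : 4 * Y + 1 ≤ 5 * Y := by omega
  have hYY : ∀ a, a ≤ 22 → Y ^ a ≤ 2 ^ Y := by
    intro a ha
    have := hYE a 0 ha (by norm_num)
    rw [pow_zero, mul_one] at this
    omega
  have c1 : 2 * (6 * (s0 + 2)) * R < l ^ (2 * Y) := by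
    calc 2 * (6 * (s0 + 2)) * R ≤ 2 * (18 * Y) * R := by gcongr
      _ = (36 * Y) * R := by ring
      _ ≤ (Y * Y) * R := by gcongr; omega
      _ = Y ^ 2 * R := by ring
      _ ≤ 2 ^ Y * R := Nat.mul_le_mul_right _ (hYY 2 (by norm_num))
      _ < 2 ^ Y * 2 ^ Y := Nat.mul_lt_mul_of_pos_left hRup (by positivity)
      _ = 2 ^ (2 * Y) := by rw [← pow_add]; congr 1; ring
      _ ≤ l ^ (2 * Y) := hl2Y
  have c2 : 32 * (6 * (s0 + 2)) * (2 * Y) * R ^ 2 ≤ l ^ (4 * Y) := by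
    calc 32 * (6 * (s0 + 2)) * (2 * Y) * R ^ 2 ≤ 32 * (18 * Y) * (2 * Y) * R ^ 2 := by gcongr
      _ = (1152 * Y ^ 2) * R ^ 2 := by ring
      _ ≤ (Y * Y ^ 2) * R ^ 2 := by gcongr; omega
      _ = Y ^ 3 * R ^ 2 := by ring
      _ ≤ 2 ^ Y * (2 ^ Y) ^ 2 := by
        have := hYY 3 (by norm_num)
        gcongr
      _ = 2 ^ (3 * Y) := by rw [← pow_mul, ← pow_add]; congr 1; ring
      _ ≤ 2 ^ (4 * Y) := Nat.pow_le_pow_right (by norm_num) (by omega)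
      _ ≤ l ^ (4 * Y) := hl4Y
  have c3 : 32 * (6 * (s0 + 2)) * (2 * Y) ^ 2 * (G * (4 * Y + 1) ^ 2) * E ≤ R := by
    calc 32 * (6 * (s0 + 2)) * (2 * Y) ^ 2 * (G * (4 * Y + 1) ^ 2) * E
        ≤ 32 * (18 * Y) * (2 * Y) ^ 2 * (G * (5 * Y) ^ 2) * E := by gcongr
      _ = (57600 * G) * Y ^ 5 * E := by ring
      _ ≤ Y * Y ^ 5 * E :=
          Nat.mul_le_mul_right _ (Nat.mul_le_mul_right _ (hk _ (by norm_num)))
      _ = Y ^ 6 * E ^ 1 := by ring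
      _ ≤ R := hYE 6 1 (by norm_num) (by norm_num)
  have c4 : 256 * (6 * (s0 + 2)) ^ 2 * (2 * Y) ^ 3 * (G * (4 * Y + 1) ^ 2) * E ≤ l ^ s0 := by
    calc 256 * (6 * (s0 + 2)) ^ 2 * (2 * Y) ^ 3 * (G * (4 * Y + 1) ^ 2) * E
        ≤ 256 * (18 * Y) ^ 2 * (2 * Y) ^ 3 * (G * (5 * Y) ^ 2) * E := by gcongr
      _ = (16588800 * G) * Y ^ 7 * E := by ring
      _ ≤ Y * Y ^ 7 * E :=
          Nat.mul_le_mul_right _ (Nat.mul_le_mul_right _ (hk _ (by norm_num)))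
      _ = Q := by rw [hQ]; ring
      _ ≤ l ^ s0 := hls0
  have c6 : 16 * (6 * (s0 + 2)) * (G * (4 * Y + 1) ^ 2) * E ≤ Y ^ 4 * E := by
    calc 16 * (6 * (s0 + 2)) * (G * (4 * Y + 1) ^ 2) * E
        ≤ 16 * (18 * Y) * (G * (5 * Y) ^ 2) * E := by gcongr
      _ = (7200 * G) * Y ^ 3 * E := by ring
      _ ≤ Y * Y ^ 3 * E :=
          Nat.mul_le_mul_right _ (Nat.mul_le_mul_right _ (hk _ (by norm_num)))
      _ = Y ^ 4 * E := by ring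
  refine ⟨2 * Y, 4 * Y, s0, q, Y ^ 4 * E, 6 * (s0 + 2), rfl, by omega, hs01, by positivity,
      c1, c2, c3, c4, ?_, c6, Or.inr ?_⟩
  · have h1 : l ^ q ≤ (Y ^ 18 * E ^ 3) ^ L := by
      calc l ^ q ≤ (2 ^ L) ^ q := Nat.pow_le_pow_left hL _
        _ = (2 ^ q) ^ L := by rw [← pow_mul, ← pow_mul, mul_comm]
        _ ≤ _ := Nat.pow_le_pow_left hq2 L
    have h2 : 4 * (6 * (s0 + 2)) * (G * (s0 + q + 1) ^ 2) ≤ Y ^ 4 := by
      calc 4 * (6 * (s0 + 2)) * (G * (s0 + q + 1) ^ 2)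
          ≤ 4 * (18 * Y) * (G * (3 * Y) ^ 2) := by
            gcongr
            omega
        _ = (648 * G) * Y ^ 3 := by ring
        _ ≤ Y * Y ^ 3 := Nat.mul_le_mul_right _ (hk _ (by norm_num))
        _ = Y ^ 4 := by ring
    calc 4 * (6 * (s0 + 2)) * (G * (s0 + q + 1) ^ 2) * l ^ q * E
        ≤ Y ^ 4 * (Y ^ 18 * E ^ 3) ^ L * E := by gcongr
      _ = (Y ^ 18 * E ^ 3) ^ L * (Y ^ 4 * E) := by ring
      _ ≤ R := hcond
  · calc 4 * (6 * (s0 + 2)) * (2 * Y) * (Y ^ 4 * E) * E * s0 ^ 2 * l ^ (s0 - 1)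
        ≤ 4 * (18 * Y) * (2 * Y) * (Y ^ 4 * E) * E * Y ^ 2 * Q := by gcongr
      _ = 144 * (Y ^ 16 * E ^ 3) := by rw [hQ]; ring
      _ ≤ Y * (Y ^ 16 * E ^ 3) := Nat.mul_le_mul_right _ (by omega)
      _ = Y ^ 17 * E ^ 3 := by ring
      _ ≤ 2 ^ q := hq1
      _ ≤ 2 ^ (q + 1) := Nat.pow_le_pow_right (by norm_num) (by omega)

theorem parL (G : ℕ) : ∃ R0 : ℕ, ∀ R ≥ R0, ∀ l ≥ 3, ∀ E, 1 ≤ E →
    (Nat.log 2 R + 1) ^ 6 * E ^ 2 ≤ l → (Nat.log 2 R + 1) ^ 6 * E ≤ R → Par G l R E := by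
  obtain ⟨R0, hR0⟩ := basics G
  refine ⟨R0, fun R hR l hl E hE hEl hER => ?_⟩
  obtain ⟨hk, hYbig, hRlow, hRup, z, hYz, hzY, hzin, hz1⟩ := hR0 R hR _ rfl
  have hYdef : Nat.log 2 R + 1 = Nat.log 2 R + 1 := rfl
  set Y := Nat.log 2 R + 1 with hY
  clear_value Y
  have hY1 : 1 ≤ Y := by omega
  have hl2Y : 2 ^ (2 * Y) ≤ l ^ (2 * Y) := Nat.pow_le_pow_left (by omega) _
  have hl4Y : 2 ^ (4 * Y) ≤ l ^ (4 * Y) := Nat.pow_le_pow_left (by omega) _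
  have h5Y : 4 * Y + 1 ≤ 5 * Y := by omega
  have hY6 : Y ^ 6 ≤ R := le_trans (by nlinarith [Nat.pow_pos (n := 6) hY1]) hER
  have hYY : ∀ a, a ≤ 6 → Y ^ a ≤ 2 ^ Y := by
    intro a ha
    exact ((Nat.pow_le_pow_right hY1 ha).trans hY6).trans hRup.le
  have c1 : 2 * (6 * (1 + 2)) * R < l ^ (2 * Y) := by
    calc 2 * (6 * (1 + 2)) * R = 36 * R := by ring
      _ ≤ Y ^ 1 * R := by rw [pow_one]; exact Nat.mul_le_mul_right _ (by omega)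
      _ ≤ 2 ^ Y * R := Nat.mul_le_mul_right _ (hYY 1 (by norm_num))
      _ < 2 ^ Y * 2 ^ Y := Nat.mul_lt_mul_of_pos_left hRup (by positivity)
      _ = 2 ^ (2 * Y) := by rw [← pow_add]; congr 1; ring
      _ ≤ l ^ (2 * Y) := hl2Y
  have c2 : 32 * (6 * (1 + 2)) * (2 * Y) * R ^ 2 ≤ l ^ (4 * Y) := by
    calc 32 * (6 * (1 + 2)) * (2 * Y) * R ^ 2 = (1152 * Y) * R ^ 2 := by ring
      _ ≤ (Y * Y) * R ^ 2 := by gcongr; omega
      _ = Y ^ 2 * R ^ 2 := by ring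
      _ ≤ 2 ^ Y * (2 ^ Y) ^ 2 := by
        have := hYY 2 (by norm_num)
        gcongr
      _ = 2 ^ (3 * Y) := by rw [← pow_mul, ← pow_add]; congr 1; ring
      _ ≤ 2 ^ (4 * Y) := Nat.pow_le_pow_right (by norm_num) (by omega)
      _ ≤ l ^ (4 * Y) := hl4Y
  have hE2 : E ≤ E ^ 2 := by nlinarith
  refine ⟨2 * Y, 4 * Y, 1, 0, Y ^ 3 * E, 6 * (1 + 2), rfl, by omega, le_rfl, by positivity,
      c1, c2, ?_, ?_, ?_, ?_, Or.inl ⟨rfl, rfl, ?_⟩⟩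
  · calc 32 * (6 * (1 + 2)) * (2 * Y) ^ 2 * (G * (4 * Y + 1) ^ 2) * E
        ≤ 32 * (6 * (1 + 2)) * (2 * Y) ^ 2 * (G * (5 * Y) ^ 2) * E := by gcongr
      _ = (57600 * G) * Y ^ 4 * E := by ring
      _ ≤ Y * Y ^ 4 * E :=
          Nat.mul_le_mul_right _ (Nat.mul_le_mul_right _ (hk _ (by norm_num)))
      _ = Y ^ 5 * E := by ring
      _ ≤ Y ^ 6 * E := Nat.mul_le_mul_right _ (Nat.pow_le_pow_right hY1 (by norm_num))
      _ ≤ R := hER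
  · calc 256 * (6 * (1 + 2)) ^ 2 * (2 * Y) ^ 3 * (G * (4 * Y + 1) ^ 2) * E
        ≤ 256 * (6 * (1 + 2)) ^ 2 * (2 * Y) ^ 3 * (G * (5 * Y) ^ 2) * E := by gcongr
      _ = (16588800 * G) * Y ^ 5 * E := by ring
      _ ≤ Y * Y ^ 5 * E :=
          Nat.mul_le_mul_right _ (Nat.mul_le_mul_right _ (hk _ (by norm_num)))
      _ = Y ^ 6 * E := by ring
      _ ≤ Y ^ 6 * E ^ 2 := Nat.mul_le_mul_left _ hE2
      _ ≤ l := hEl
      _ = l ^ 1 := (pow_one l).symm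
  · calc 4 * (6 * (1 + 2)) * (G * (1 + 0 + 1) ^ 2) * l ^ 0 * E = (288 * G) * E := by ring
      _ ≤ Y * E := Nat.mul_le_mul_right _ (hk _ (by norm_num))
      _ = Y ^ 1 * E := by rw [pow_one]
      _ ≤ Y ^ 6 * E := Nat.mul_le_mul_right _ (Nat.pow_le_pow_right hY1 (by norm_num))
      _ ≤ R := hER
  · calc 16 * (6 * (1 + 2)) * (G * (4 * Y + 1) ^ 2) * E
        ≤ 16 * (6 * (1 + 2)) * (G * (5 * Y) ^ 2) * E := by gcongr
      _ = (7200 * G) * Y ^ 2 * E := by ring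
      _ ≤ Y * Y ^ 2 * E :=
          Nat.mul_le_mul_right _ (Nat.mul_le_mul_right _ (hk _ (by norm_num)))
      _ = Y ^ 3 * E := by ring
  · rw [← hY]
    calc 4 * (6 * (1 + 2)) * (2 * Y) * (Y ^ 3 * E) * E * Y = 144 * (Y ^ 5 * E ^ 2) := by ring
      _ ≤ Y * (Y ^ 5 * E ^ 2) := Nat.mul_le_mul_right _ (by omega)
      _ = Y ^ 6 * E ^ 2 := by ring
      _ ≤ l := hEl

/-- for all `l` the saving `2 ^ e` with `12 e² ≤ log₂ R + 1` is admissible -/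
theorem unif (G : ℕ) : ∃ R0 : ℕ, ∀ R ≥ R0, ∀ l ≥ 3, ∀ e, 12 * e ^ 2 ≤ Nat.log 2 R + 1 →
    Par G l R (2 ^ e) := by
  obtain ⟨R0, hR0⟩ := basics G
  obtain ⟨R1, hR1⟩ := parS G
  obtain ⟨R2, hR2⟩ := parL G
  refine ⟨R0 + R1 + R2, fun R hR l hl e he => ?_⟩
  obtain ⟨hk, hYbig, hRlow, hRup, z, hYz, hzY, hzin, hz1⟩ := hR0 R (by omega) _ rfl
  have pS := hR1 R (by omega) l hl
  have pL := hR2 R (by omega) l hl
  set Y := Nat.log 2 R + 1 with hY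
  clear_value Y
  have hY1 : 1 ≤ Y := by omega
  have hee : e ≤ e ^ 2 := by nlinarith [Nat.zero_le e, sq_nonneg e]
  rcases Nat.lt_or_ge l (Y ^ 6 * (2 ^ e) ^ 2) with hlt | hge
  · refine pS (6 * z + 2 * e) ?_ (2 ^ e) (Nat.one_le_two_pow) ?_
    · refine hlt.le.trans ?_
      calc Y ^ 6 * (2 ^ e) ^ 2 ≤ (2 ^ z) ^ 6 * (2 ^ e) ^ 2 := by gcongr
        _ = 2 ^ (6 * z + 2 * e) := by rw [← pow_mul, ← pow_mul, ← pow_add]; congr 1; ring
    · calc (Y ^ 18 * (2 ^ e) ^ 3) ^ (6 * z + 2 * e) * (Y ^ 4 * 2 ^ e)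
          ≤ ((2 ^ z) ^ 18 * (2 ^ e) ^ 3) ^ (6 * z + 2 * e) * ((2 ^ z) ^ 4 * 2 ^ e) := by gcongr
        _ = 2 ^ ((18 * z + 3 * e) * (6 * z + 2 * e) + (4 * z + e)) := by
            rw [← pow_mul, ← pow_mul, ← pow_add, ← pow_mul, ← pow_mul, ← pow_add, ← pow_add]
            congr 1; ring
        _ ≤ 2 ^ (Y - 1) := by
            apply Nat.pow_le_pow_right (by norm_num)
            have h1 : 54 * (z * e) ≤ 3 * e ^ 2 + 243 * z ^ 2 := by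
              nlinarith [sq_nonneg ((e : ℤ) - 9 * z), sq_nonneg (e - 9 * z), Nat.zero_le e,
                Nat.zero_le z, two_mul_le_add_sq (e : ℤ) (9 * z)]
            have h2 : (18 * z + 3 * e) * (6 * z + 2 * e) + (4 * z + e) =
              108 * z ^ 2 + 54 * (z * e) + 6 * e ^ 2 + 4 * z + e := by ring
            rw [h2]
            have h3 : z ≤ z ^ 2 := by nlinarith
            have h4 : 1 ≤ z ^ 2 := by nlinarith
            omega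
        _ ≤ R := hRlow
  · refine pL (2 ^ e) (Nat.one_le_two_pow) hge ?_
    calc Y ^ 6 * 2 ^ e ≤ (2 ^ z) ^ 6 * 2 ^ e := by gcongr
      _ = 2 ^ (6 * z + e) := by rw [← pow_mul, ← pow_add]; congr 1; ring
      _ ≤ 2 ^ (Y - 1) := by
          apply Nat.pow_le_pow_right (by norm_num)
          have h3 : z ≤ z ^ 2 := by nlinarith
          have h4 : 1 ≤ z ^ 2 := by nlinarith
          omega
      _ ≤ R := hRlow

end Pool.Agent.Y873.FL
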