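import Pool.Agent.Y873.FL.Par

/-! Three explicit bounds for sets with levels and short rainbow paths (MP_f298ee_co). -/

namespace Pool.Agent.Y873.FL

open Finset Pool.Agent.TH780.FR

/-- from `R' / 2 ^ e < R ≤ R'`: the logarithms of `R` and `R'` are close -/
theorem log_close {R R' e : ℕ} (h : R' / 2 ^ e + 1 < R) :
    Nat.log 2 R' + 1 ≤ e + (Nat.log 2 R + 1) := by
  have h1 : R' < 2 ^ e * (R' / 2 ^ e + 1) := Nat.lt_mul_div_succ R' (by positivity)
  have h2 : R < 2 ^ (Nat.log 2 R + 1) := Nat.lt_pow_succ_log_self (by norm_num) R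
  have h3 : R' < 2 ^ (e + (Nat.log 2 R + 1)) := by
    calc R' < 2 ^ e * (R' / 2 ^ e + 1) := h1
      _ ≤ 2 ^ e * 2 ^ (Nat.log 2 R + 1) := Nat.mul_le_mul_left _ (by omega)
      _ = _ := by rw [← pow_add]
  rcases Nat.eq_zero_or_pos R' with h0 | h0
  · subst h0
    simp
    omega
  · exact Nat.log_lt_of_lt_pow (by omega) h3

theorem rate1 : ∃ A : ℕ, ∀ l ≥ 3, ∀ (R' : ℕ) (c : ℕ → ℕ → ℕ) (V : Finset ℕ) (lam : ℕ → ℕ → ℕ),
    Lev c V l lam → RB c V R' → ∀ e, 24 * e ^ 2 ≤ Nat.log 2 R' + 1 →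
    V.card ≤ A * (R' / 2 ^ e + 2) * l ^ R' := by
  obtain ⟨G, hG⟩ := main_gen
  obtain ⟨R0, hR0⟩ := unif G
  obtain ⟨A, hA⟩ := hG R0
  refine ⟨A, fun l hl R' c V lam hL hRB e he => ?_⟩
  have h1 := hA l hl R' (R' / 2 ^ e + 1) (by
    intro R hR hRR'
    rcases Nat.lt_or_ge (R' / 2 ^ e + 1) R with h | h
    · refine ⟨2 ^ e, Nat.one_le_two_pow, hR0 R hR l hl e ?_, ?_⟩
      · have h2 := log_close h
        have hee : e ≤ e ^ 2 := by nlinarith [Nat.zero_le e]
        omega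
      · exact hRR'.trans (Nat.lt_mul_div_succ R' (by positivity)).le
    · refine ⟨1, le_rfl, ?_, by omega⟩
      have := hR0 R hR l hl 0 (by omega)
      simpa using this) c V lam hL hRB
  simpa [add_assoc] using h1

theorem rate2 : ∃ A : ℕ, ∀ l ≥ 3, ∀ L, l ≤ 2 ^ L → ∀ (R' : ℕ) (c : ℕ → ℕ → ℕ) (V : Finset ℕ)
    (lam : ℕ → ℕ → ℕ), Lev c V l lam → RB c V R' → ∀ e, 32 * L * e ≤ Nat.log 2 R' + 1 →
    V.card ≤ A * (R' / 2 ^ e + 2) * l ^ R' := by
  obtain ⟨G, hG⟩ := main_gen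
  obtain ⟨R0, hR0⟩ := unif G
  obtain ⟨R1, hR1⟩ := parS G
  obtain ⟨R2, hR2⟩ := basics G
  obtain ⟨A, hA⟩ := hG (R0 + R1 + R2)
  refine ⟨A, fun l hl L hlL R' c V lam hL hRB e he => ?_⟩
  have hL1 : 1 ≤ L := by
    by_contra h
    have : L = 0 := by omega
    subst this
    omega
  have hee : e ≤ e ^ 2 := by nlinarith [Nat.zero_le e]
  have h1 := hA l hl R' (R' / 2 ^ e + 1) (by
    intro R hR hRR'
    rcases Nat.lt_or_ge (R' / 2 ^ e + 1) R with h | h
    · refine ⟨2 ^ e, Nat.one_le_two_pow, ?_, ?_⟩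
      · have h2 := log_close h
        obtain ⟨hk, hYbig, hRlow, hRup, z, hYz, hzY, hzin, hz1⟩ := hR2 R (by omega) _ rfl
        set Y := Nat.log 2 R + 1 with hY
        rcases Nat.lt_or_ge (Nat.log 2 R' + 1) (L ^ 2) with h3 | h3
        · -- large `L`
          apply hR0 R (by omega) l hl e
          have h4 : 1024 * e ^ 2 * L ^ 2 ≤ (Nat.log 2 R' + 1) * L ^ 2 := by
            calc 1024 * e ^ 2 * L ^ 2 = (32 * L * e) * (32 * L * e) := by ring
              _ ≤ (Nat.log 2 R' + 1) * (Nat.log 2 R' + 1) := Nat.mul_le_mul he he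
              _ ≤ (Nat.log 2 R' + 1) * L ^ 2 := Nat.mul_le_mul_left _ h3.le
          have h5 := Nat.le_of_mul_le_mul_right h4 (by positivity)
          omega
        · apply hR1 R (by omega) l hl L hlL (2 ^ e) Nat.one_le_two_pow
          rw [← hY]
          calc (Y ^ 18 * (2 ^ e) ^ 3) ^ L * (Y ^ 4 * 2 ^ e)
              ≤ ((2 ^ z) ^ 18 * (2 ^ e) ^ 3) ^ L * ((2 ^ z) ^ 4 * 2 ^ e) := by gcongr
            _ = 2 ^ ((18 * z + 3 * e) * L + (4 * z + e)) := by
                rw [← pow_mul, ← pow_mul, ← pow_add, ← pow_mul, ← pow_mul, ← pow_add, ← pow_add]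
                congr 1; ring
            _ ≤ 2 ^ (Y - 1) := by
                apply Nat.pow_le_pow_right (by norm_num)
                have h4 : 144 * (z * L) ≤ L ^ 2 + 5184 * z ^ 2 := by
                  nlinarith [two_mul_le_add_sq (L : ℤ) (72 * z)]
                have h5 : (18 * z + 3 * e) * L + (4 * z + e) =
                  18 * (z * L) + 3 * (L * e) + 4 * z + e := by ring
                rw [h5]
                have h6 : 32 * (L * e) ≤ Nat.log 2 R' + 1 := by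
                  calc 32 * (L * e) = 32 * L * e := by ring
                    _ ≤ _ := he
                have h7 : e ≤ L * e := Nat.le_mul_of_pos_left _ hL1
                have h8 : z ≤ z ^ 2 := by nlinarith
                have h9 : 1 ≤ z ^ 2 := by nlinarith
                omega
            _ ≤ R := hRlow
      · exact hRR'.trans (Nat.lt_mul_div_succ R' (by positivity)).le
    · refine ⟨1, le_rfl, ?_, by omega⟩
      have := hR0 R (by omega) l hl 0 (by omega)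
      simpa using this) c V lam hL hRB
  simpa [add_assoc] using h1

theorem rate3 : ∃ A : ℕ, ∀ l ≥ 3, ∀ (R' : ℕ) (c : ℕ → ℕ → ℕ) (V : Finset ℕ) (lam : ℕ → ℕ → ℕ),
    Lev c V l lam → RB c V R' →
    V.card ≤ A * (2 * (Nat.log 2 R' + 1) ^ 6 * (R' / Nat.sqrt l + 1) + 1) * l ^ R' := by
  obtain ⟨G, hG⟩ := main_gen
  obtain ⟨R0, hR0⟩ := unif G
  obtain ⟨R1, hR1⟩ := parL G
  obtain ⟨R2, hR2⟩ := basics G
  obtain ⟨A, hA⟩ := hG (R0 + R1 + R2)
  refine ⟨A, fun l hl R' c V lam hL hRB => ?_⟩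
  refine hA l hl R' (2 * (Nat.log 2 R' + 1) ^ 6 * (R' / Nat.sqrt l + 1)) ?_ c V lam hL hRB
  intro R hR hRR'
  obtain ⟨hk, hYbig, hRlow, hRup, z, hYz, hzY, hzin, hz1⟩ := hR2 R (by omega) _ rfl
  have hYY' : Nat.log 2 R + 1 ≤ Nat.log 2 R' + 1 := by
    have := Nat.log_mono_right (b := 2) hRR'
    omega
  have p0 := hR0 R (by omega) l hl 0 (by omega)
  have pL := hR1 R (by omega) l hl
  set Y := Nat.log 2 R + 1 with hY
  set Y' := Nat.log 2 R' + 1 with hY'
  clear_value Y Y'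
  have hY1 : 1 ≤ Y := by omega
  set m := Nat.sqrt l with hm
  have hm1 : 1 ≤ m := Nat.le_sqrt.mpr (by omega)
  have hml : m * m ≤ l := Nat.sqrt_le l
  have hlm : l < (m + 1) * (m + 1) := Nat.lt_succ_sqrt l
  have hR'm : R' < m * (R' / m + 1) := Nat.lt_mul_div_succ R' (by omega)
  have hYp : ∀ a b, a ≤ b → b ≤ 6 → Y ^ a ≤ Y' ^ 6 := by
    intro a b hab hb
    exact (Nat.pow_le_pow_right hY1 (hab.trans hb)).trans (Nat.pow_le_pow_left hYY' 6)
  rcases Nat.lt_or_ge l (Y ^ 6) with hlt | hge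
  · refine ⟨1, le_rfl, by simpa using p0, ?_⟩
    have h1 : m ≤ Y ^ 3 := by
      by_contra h
      push Not at h
      have : Y ^ 3 * Y ^ 3 ≤ m * m := Nat.mul_le_mul h.le h.le
      have h2 : Y ^ 3 * Y ^ 3 = Y ^ 6 := by ring
      omega
    calc R ≤ R' := hRR'
      _ ≤ m * (R' / m + 1) := hR'm.le
      _ ≤ Y' ^ 6 * (R' / m + 1) := Nat.mul_le_mul_right _ (h1.trans (hYp 3 6 (by norm_num) le_rfl))
      _ ≤ 1 * (2 * Y' ^ 6 * (R' / m + 1)) := by
          rw [one_mul, mul_assoc]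
          exact Nat.le_mul_of_pos_left _ (by norm_num)
  · have hY3m : Y ^ 3 ≤ m := by
      apply Nat.le_sqrt.mpr
      calc Y ^ 3 * Y ^ 3 = Y ^ 6 := by ring
        _ ≤ l := hge
    have hY6R : Y ^ 6 ≤ R := by
      calc Y ^ 6 ≤ (2 ^ z) ^ 6 := Nat.pow_le_pow_left hYz 6
        _ = 2 ^ (z * 6) := by rw [← pow_mul]
        _ ≤ 2 ^ (Y - 1) := by
            apply Nat.pow_le_pow_right (by norm_num)
            have h8 : z ≤ z ^ 2 := by nlinarith
            have h9 : 1 ≤ z ^ 2 := by nlinarith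
            omega
        _ ≤ R := hRlow
    have hY3p : 0 < Y ^ 3 := by positivity
    have hY6p : 0 < Y ^ 6 := by positivity
    have hE1 : 1 ≤ m / Y ^ 3 := (Nat.one_le_div_iff hY3p).mpr hY3m
    have hE2 : 1 ≤ R / Y ^ 6 := (Nat.one_le_div_iff hY6p).mpr hY6R
    have a1 : Y ^ 3 * (m / Y ^ 3) ≤ m := Nat.mul_div_le _ _
    have a2 : Y ^ 6 * (R / Y ^ 6) ≤ R := Nat.mul_div_le _ _
    have b1 : m < Y ^ 3 * (m / Y ^ 3 + 1) := Nat.lt_mul_div_succ m hY3p
    have b2 : R < Y ^ 6 * (R / Y ^ 6 + 1) := Nat.lt_mul_div_succ R hY6p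
    refine ⟨min (m / Y ^ 3) (R / Y ^ 6), le_min hE1 hE2, ?_, ?_⟩
    · apply pL _ (le_min hE1 hE2)
      · calc Y ^ 6 * (min (m / Y ^ 3) (R / Y ^ 6)) ^ 2 ≤ Y ^ 6 * (m / Y ^ 3) ^ 2 := by
              gcongr
              exact min_le_left _ _
          _ = (Y ^ 3 * (m / Y ^ 3)) * (Y ^ 3 * (m / Y ^ 3)) := by ring
          _ ≤ m * m := Nat.mul_le_mul a1 a1
          _ ≤ l := hml
      · exact (Nat.mul_le_mul_left _ (min_le_right _ _)).trans a2
    · rcases min_choice (m / Y ^ 3) (R / Y ^ 6) with h | h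
      · rw [h]
        calc R ≤ R' := hRR'
          _ ≤ m * (R' / m + 1) := hR'm.le
          _ ≤ (Y ^ 3 * (m / Y ^ 3 + 1)) * (R' / m + 1) := Nat.mul_le_mul_right _ b1.le
          _ ≤ (Y ^ 3 * (2 * (m / Y ^ 3))) * (R' / m + 1) := by
              apply Nat.mul_le_mul_right
              apply Nat.mul_le_mul_left
              omega
          _ ≤ (Y' ^ 6 * (2 * (m / Y ^ 3))) * (R' / m + 1) := by
              have := hYp 3 6 (by norm_num) le_rfl
              gcongr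
          _ = m / Y ^ 3 * (2 * Y' ^ 6 * (R' / m + 1)) := by ring
      · rw [h]
        calc R ≤ Y ^ 6 * (R / Y ^ 6 + 1) := b2.le
          _ ≤ Y ^ 6 * (2 * (R / Y ^ 6)) := by
              apply Nat.mul_le_mul_left
              omega
          _ ≤ Y' ^ 6 * (2 * (R / Y ^ 6)) := Nat.mul_le_mul_right _ (hYp 6 6 le_rfl le_rfl)
          _ = R / Y ^ 6 * (2 * Y' ^ 6 * 1) := by ring
          _ ≤ R / Y ^ 6 * (2 * Y' ^ 6 * (R' / m + 1)) :=
              Nat.mul_le_mul_left _ (Nat.mul_le_mul_left _ (Nat.succ_le_succ (Nat.zero_le _)))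

end Pool.Agent.Y873.FL
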